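import Mathlib

/-! Straight line programs over a commutative algebra and the block recursion for matrix
products. -/

namespace Pool.Agent.P.MP_e72dc0_lc.Ck

open Finset

variable {R : Type} [CommRing R]

/-- From the available elements `S`, at most `s` gates make all elements of `T` available. -/
inductive Reach : Set R → ℕ → Set R → Prop
  | base {S T : Set R} {s : ℕ} : T ⊆ S → Reach S s T
  | step {S T : Set R} {s : ℕ} {x y z : R} : x ∈ S → y ∈ S → (z = x + y ∨ z = x * y) →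
      Reach (insert z S) s T → Reach S (s + 1) T

theorem Reach.mono {S T : Set R} {s : ℕ} (h : Reach S s T) :
    ∀ {S' T' : Set R} {s' : ℕ}, S ⊆ S' → s ≤ s' → T' ⊆ T ∪ S' → Reach S' s' T' := by
  induction h with
  | base h =>
    intro S' T' s' h1 _ h3
    exact Reach.base (h3.trans (Set.union_subset (h.trans h1) le_rfl))
  | step hx hy hz _ ih =>
    intro S' T' s' h1 h2 h3
    obtain ⟨s'', rfl⟩ : ∃ k, s' = k + 1 := ⟨s' - 1, by omega⟩
    refine Reach.step (h1 hx) (h1 hy) hz (ih (Set.insert_subset_insert h1) (by omega) ?_)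
    exact h3.trans (Set.union_subset_union_right _ (Set.subset_insert _ _))

theorem Reach.trans {S T : Set R} {s : ℕ} (h : Reach S s T) :
    ∀ {U : Set R} {s' : ℕ}, Reach (S ∪ T) s' U → Reach S (s + s') U := by
  induction h with
  | base h =>
    intro U s' h2
    exact h2.mono (Set.union_subset le_rfl h) (by omega) Set.subset_union_left
  | @step S T s x y z hx hy hz _ ih =>
    intro U s' h2
    have := ih (h2.mono (Set.union_subset_union_left _ (Set.subset_insert z S)) le_rfl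
      Set.subset_union_left)
    rw [show s + 1 + s' = s + s' + 1 by omega]
    exact Reach.step hx hy hz this

theorem Reach.union {S T U : Set R} {s s' : ℕ} (h : Reach S s T) (h' : Reach S s' U) :
    Reach S (s + s') (T ∪ U) := by
  refine h.trans (h'.mono Set.subset_union_left le_rfl ?_)
  rintro x (hx | hx)
  · exact Or.inr (Or.inr hx)
  · exact Or.inl hx

theorem Reach.biUnion {ι : Type} {S : Set R} {s : ℕ} (T : ι → Set R) (F : Finset ι)
    (h : ∀ i, Reach S s (T i)) : Reach S (F.card * s) {z | ∃ i ∈ F, z ∈ T i} := by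
  classical
  induction F using Finset.induction_on with
  | empty => exact Reach.base (by simp)
  | insert a F ha ih =>
    refine ((h a).union ih).mono le_rfl (by rw [card_insert_of_notMem ha]; nlinarith) ?_
    rintro z ⟨i, hi, hz⟩
    rcases mem_insert.1 hi with rfl | hi
    · exact Or.inl (Or.inl hz)
    · exact Or.inl (Or.inr ⟨i, hi, hz⟩)

theorem Reach.range {ι : Type} [Fintype ι] {S : Set R} {s : ℕ} (f : ι → R)
    (h : ∀ i, Reach S s {f i}) : Reach S (Fintype.card ι * s) (Set.range f) := by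
  refine (Reach.biUnion (fun i => {f i}) univ h).mono le_rfl le_rfl ?_
  rintro z ⟨i, rfl⟩
  exact Or.inl ⟨i, mem_univ _, rfl⟩

theorem Reach.toList {S T : Set R} {s : ℕ} (h : Reach S s T) :
    ∃ s' ≤ s, ∃ g : Fin s' → R,
      (∀ t, ∃ u ∈ S ∪ g '' Set.Iio t, ∃ v ∈ S ∪ g '' Set.Iio t, g t = u + v ∨ g t = u * v) ∧
      T ⊆ S ∪ Set.range g := by
  induction h with
  | base h =>
    exact ⟨0, Nat.zero_le _, Fin.elim0, fun t => t.elim0, h.trans Set.subset_union_left⟩
  | @step S T s x y z hx hy hz _ ih =>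
    obtain ⟨s', hs, g, hg, hT⟩ := ih
    have key : ∀ (t : Fin s') (u : R), u ∈ insert z S ∪ g '' Set.Iio t →
        u ∈ S ∪ (Fin.cons z g : Fin (s' + 1) → R) '' Set.Iio t.succ := by
      rintro t u ((rfl | hu) | ⟨t', ht', rfl⟩)
      · exact Or.inr ⟨0, Fin.succ_pos t, rfl⟩
      · exact Or.inl hu
      · exact Or.inr ⟨t'.succ, Fin.succ_lt_succ_iff.2 ht', rfl⟩
    refine ⟨s' + 1, by omega, Fin.cons z g, fun t => ?_, ?_⟩
    · refine Fin.cases ?_ (fun t => ?_) t
      · exact ⟨x, Or.inl hx, y, Or.inl hy, hz⟩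
      · obtain ⟨u, hu, v, hv, h⟩ := hg t
        exact ⟨u, key t u hu, v, key t v hv, h⟩
    · intro u hu
      rcases hT hu with (rfl | hu) | ⟨t, rfl⟩
      · exact Or.inr ⟨0, rfl⟩
      · exact Or.inl hu
      · exact Or.inr ⟨t.succ, rfl⟩

variable [Algebra ℂ R]

theorem Reach.linF {ι : Type} {S : Set R} (hS : Set.range (algebraMap ℂ R) ⊆ S) (x : ι → R)
    (hx : ∀ i, x i ∈ S) (c : ι → ℂ) (F : Finset ι) :
    Reach S (2 * F.card) {∑ i ∈ F, c i • x i} := by
  classical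
  induction F using Finset.induction_on with
  | empty => exact Reach.base (by simpa using hS ⟨0, by simp⟩)
  | insert a F ha ih =>
    rw [card_insert_of_notMem ha, sum_insert ha, mul_add]
    refine ih.trans ?_
    refine Reach.step (x := algebraMap ℂ R (c a)) (y := x a) (z := c a • x a)
      (Or.inl (hS ⟨_, rfl⟩)) (Or.inl (hx a)) (Or.inr (Algebra.smul_def _ _)) ?_
    refine Reach.step (x := c a • x a) (y := ∑ i ∈ F, c i • x i) (Or.inl rfl)
      (Or.inr (Or.inr rfl)) (Or.inl rfl) (Reach.base ?_)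
    rintro z rfl
    exact Or.inl rfl

theorem Reach.lin {ι : Type} [Fintype ι] {S : Set R} (hS : Set.range (algebraMap ℂ R) ⊆ S)
    (x : ι → R) (hx : ∀ i, x i ∈ S) (c : ι → ℂ) :
    Reach S (2 * Fintype.card ι) {∑ i, c i • x i} :=
  Reach.linF hS x hx c univ

/-- `s` gates compute one product of `κ × κ` matrices for each index in `L`. -/
def MM (R : Type) [CommRing R] [Algebra ℂ R] (L κ : Type) [Fintype κ] (s : ℕ) : Prop :=
  ∀ S : Set R, Set.range (algebraMap ℂ R) ⊆ S → ∀ X Y : L → κ → κ → R,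
    (∀ l i j, X l i j ∈ S) → (∀ l i j, Y l i j ∈ S) →
    Reach S s (Set.range fun p : L × κ × κ => ∑ k, X p.1 p.2.1 k * Y p.1 k p.2.2)

theorem MM.unit (L : Type) [Fintype L] : MM R L Unit (Fintype.card L) := by
  intro S _ X Y hX hY
  have := Reach.range (S := S) (s := 1)
    (fun p : L × Unit × Unit => ∑ k, X p.1 p.2.1 k * Y p.1 k p.2.2) (fun p => by
      refine Reach.step (hX p.1 () ()) (hY p.1 () ()) (Or.inr rfl) (Reach.base ?_)
      rintro z rfl
      exact Or.inl (by simp))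
  simpa using this

theorem MM.of_le {L κ κ' : Type} [Fintype κ] [Fintype κ'] [Nonempty κ'] {s : ℕ}
    (h : MM R L κ s) (hc : Fintype.card κ' ≤ Fintype.card κ) : MM R L κ' s := by
  classical
  obtain ⟨e⟩ := Function.Embedding.nonempty_of_card_le hc
  obtain ⟨r, hr⟩ := e.injective.hasLeftInverse
  intro S hS X Y hX hY
  have := h S hS (fun l i j => if j ∈ univ.map e then X l (r i) (r j) else 0)
    (fun l j k => Y l (r j) (r k))
    (fun l i j => by
      split_ifs
      · exact hX _ _ _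
      · exact hS ⟨0, by simp⟩)
    (fun l j k => hY _ _ _)
  refine this.mono le_rfl le_rfl ?_
  rintro z ⟨p, rfl⟩
  refine Or.inl ⟨(p.1, e p.2.1, e p.2.2), ?_⟩
  simp only [ite_mul, zero_mul]
  rw [sum_ite_mem, univ_inter, sum_map]
  simp only [hr _]

/-- A bilinear scheme with multiplications indexed by `P` for the products of `Q × Q` matrices
indexed by `L`. -/
def Bil (L Q P : Type) [Fintype P] [DecidableEq L] [DecidableEq Q] : Prop :=
  ∃ α β γ : P → L × Q × Q → ℂ, ∀ a b c : L × Q × Q,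
    ∑ p, α p a * β p b * γ p c =
      if a.1 = c.1 ∧ b.1 = c.1 ∧ a.2.1 = c.2.1 ∧ a.2.2 = b.2.1 ∧ b.2.2 = c.2.2 then 1 else 0

theorem bil_eval {L Q P : Type} [Fintype L] [Fintype Q] [Fintype P] [DecidableEq L]
    [DecidableEq Q] {α β γ : P → L × Q × Q → ℂ}
    (h : ∀ a b c : L × Q × Q, ∑ p, α p a * β p b * γ p c =
      if a.1 = c.1 ∧ b.1 = c.1 ∧ a.2.1 = c.2.1 ∧ a.2.2 = b.2.1 ∧ b.2.2 = c.2.2 then 1 else 0)
    (x y : L × Q × Q → R) (c : L × Q × Q) :
    ∑ p, γ p c • ((∑ a, α p a • x a) * ∑ b, β p b • y b) =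
      ∑ j, x (c.1, c.2.1, j) * y (c.1, j, c.2.2) := by
  have e1 : ∑ p, γ p c • ((∑ a, α p a • x a) * ∑ b, β p b • y b) =
      ∑ a, ∑ b, (∑ p, α p a * β p b * γ p c) • (x a * y b) := by
    simp only [sum_mul_sum, smul_sum, sum_smul]
    rw [sum_comm]
    refine sum_congr rfl fun a _ => ?_
    rw [sum_comm]
    refine sum_congr rfl fun b _ => sum_congr rfl fun p _ => ?_
    rw [smul_mul_smul_comm, smul_smul, mul_comm (γ p c)]
  rw [e1]
  simp only [h, ite_smul, one_smul, zero_smul]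
  have e2 : ∀ a : L × Q × Q, (∑ b : L × Q × Q, if a.1 = c.1 ∧ b.1 = c.1 ∧ a.2.1 = c.2.1 ∧
      a.2.2 = b.2.1 ∧ b.2.2 = c.2.2 then x a * y b else 0) =
      if a.1 = c.1 ∧ a.2.1 = c.2.1 then x a * y (c.1, a.2.2, c.2.2) else 0 := by
    intro a
    rw [sum_eq_single (c.1, a.2.2, c.2.2)]
    · simp
    · rintro ⟨b1, b2, b3⟩ _ hb
      rw [if_neg]
      rintro ⟨-, h1, -, h2, h3⟩
      exact hb (Prod.ext h1 (Prod.ext h2.symm h3))
    · simp
  simp only [e2]
  rw [Fintype.sum_prod_type, sum_eq_single c.1, Fintype.sum_prod_type, sum_eq_single c.2.1]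
  · simp
  · intro b _ hb
    simp [hb]
  · simp
  · intro b _ hb
    simp [hb]
  · simp

theorem MM.step {L Q P κ : Type} [Fintype L] [Fintype Q] [Fintype P] [Fintype κ] [DecidableEq L]
    [DecidableEq Q] [Nonempty P] (hB : Bil L Q P) {ρ s : ℕ}
    (hρ : Fintype.card P ≤ ρ * Fintype.card L) (h : MM R L κ s) :
    MM R L (Q × κ) (ρ * s + 6 * (Fintype.card P * Fintype.card (L × Q × Q)) *
      Fintype.card κ ^ 2) := by
  classical
  obtain ⟨α, β, γ, hB⟩ := hB
  obtain ⟨e⟩ := Function.Embedding.nonempty_of_card_le (α := P) (β := Fin ρ × L) (by simpa using hρ)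
  obtain ⟨f, hf⟩ := e.injective.hasLeftInverse
  intro S hS X Y hX hY
  set U : P × κ × κ → R := fun p => ∑ a : L × Q × Q,
    α p.1 a • X a.1 (a.2.1, p.2.1) (a.2.2, p.2.2) with hU
  set V : P × κ × κ → R := fun p => ∑ a : L × Q × Q,
    β p.1 a • Y a.1 (a.2.1, p.2.1) (a.2.2, p.2.2) with hV
  set W : P × κ × κ → R := fun p => ∑ b, U (p.1, p.2.1, b) * V (p.1, b, p.2.2) with hW
  have r1 := (Reach.range U fun p => Reach.lin hS _ (fun a => hX _ _ _) _).union
    (Reach.range V fun p => Reach.lin hS _ (fun a => hY _ _ _) _)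
  set S1 := S ∪ (Set.range U ∪ Set.range V) with hS1
  have r2 : Reach S1 (ρ * s) (Set.range W) := by
    have := Reach.biUnion (S := S1) (s := s) (fun r : Fin ρ => Set.range fun p : L × κ × κ =>
      ∑ k, U (f (r, p.1), p.2.1, k) * V (f (r, p.1), k, p.2.2)) univ fun r =>
        h S1 (hS.trans Set.subset_union_left) (fun l i j => U (f (r, l), i, j))
          (fun l i j => V (f (r, l), i, j)) (fun _ _ _ => Or.inr (Or.inl ⟨_, rfl⟩))
          (fun _ _ _ => Or.inr (Or.inr ⟨_, rfl⟩))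
    refine this.mono le_rfl (by simp) ?_
    rintro z ⟨p, rfl⟩
    refine Or.inl ⟨(e p.1).1, mem_univ _, ((e p.1).2, p.2), ?_⟩
    simp only [Prod.mk.eta, hf _, hW]
  have r3 := Reach.range (S := S1 ∪ Set.range W)
    (fun p : L × (Q × κ) × (Q × κ) => ∑ q, γ q (p.1, p.2.1.1, p.2.2.1) • W (q, p.2.1.2, p.2.2.2))
    fun p => Reach.lin ((hS.trans Set.subset_union_left).trans Set.subset_union_left)
      (fun q => W (q, p.2.1.2, p.2.2.2)) (fun q => Or.inr (Set.mem_range_self _)) _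
  refine (r1.trans (r2.trans r3)).mono le_rfl (le_of_eq ?_) ?_
  · simp only [Fintype.card_prod]
    ring
  · rintro z ⟨p, rfl⟩
    refine Or.inl ⟨p, ?_⟩
    simp only [hW, smul_sum]
    rw [sum_comm, Fintype.sum_prod_type_right]
    refine sum_congr rfl fun b _ => ?_
    exact bil_eval hB (fun a => X a.1 (a.2.1, p.2.1.2) (a.2.2, b))
      (fun a => Y a.1 (a.2.1, b) (a.2.2, p.2.2.2)) (p.1, p.2.1.1, p.2.2.1)

theorem MM.pow {L Q P : Type} [Fintype L] [Fintype Q] [Fintype P] [DecidableEq L]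
    [DecidableEq Q] [Nonempty P] [Nonempty Q] (hB : Bil L Q P) {ρ : ℕ}
    (hρ : Fintype.card P ≤ ρ * Fintype.card L) {w : ℝ} (hw : 2 ≤ w)
    (hlt : (ρ : ℝ) < (Fintype.card Q : ℝ) ^ w) :
    ∃ C : ℝ, 0 ≤ C ∧ ∀ (R : Type) [CommRing R] [Algebra ℂ R] (k : ℕ), ∃ s : ℕ,
      (s : ℝ) ≤ C * ((Fintype.card Q ^ k : ℕ) : ℝ) ^ w ∧ MM R L (Fin (Fintype.card Q ^ k)) s := by
  set q := Fintype.card Q with hq
  have q1 : 1 ≤ q := Fintype.card_pos
  set c : ℕ := 6 * (Fintype.card P * Fintype.card (L × Q × Q)) with hc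
  have hd : 0 < (q : ℝ) ^ w - ρ := sub_pos.2 hlt
  refine ⟨Fintype.card L + c / ((q : ℝ) ^ w - ρ), by positivity, fun R _ _ k => ?_⟩
  set C : ℝ := Fintype.card L + c / ((q : ℝ) ^ w - ρ) with hC
  have hC1 : (c : ℝ) ≤ C * ((q : ℝ) ^ w - ρ) := by
    rw [hC, add_mul, div_mul_cancel₀ _ hd.ne']
    have : 0 ≤ (Fintype.card L : ℝ) * ((q : ℝ) ^ w - ρ) := by positivity
    linarith
  induction k with
  | zero =>
    refine ⟨Fintype.card L, ?_, (MM.unit L).of_le (by simp)⟩
    have : 0 ≤ (c : ℝ) / ((q : ℝ) ^ w - ρ) := by positivity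
    simp only [pow_zero, Nat.cast_one, Real.one_rpow, mul_one]
    linarith
  | succ k ih =>
    obtain ⟨s, hs, hM⟩ := ih
    have hne : Nonempty (Fin (q ^ (k + 1))) := ⟨⟨0, by positivity⟩⟩
    refine ⟨_, ?_, (hM.step hB hρ).of_le (by simp [← hq, pow_succ, mul_comm])⟩
    have t1 : (1 : ℝ) ≤ (q ^ k : ℕ) := by exact_mod_cast Nat.one_le_pow _ _ q1
    have t2 : ((q ^ k : ℕ) : ℝ) ^ 2 ≤ ((q ^ k : ℕ) : ℝ) ^ w := by
      rw [← Real.rpow_two]
      exact Real.rpow_le_rpow_of_exponent_le t1 hw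
    have t3 : ((q ^ (k + 1) : ℕ) : ℝ) ^ w = ((q ^ k : ℕ) : ℝ) ^ w * (q : ℝ) ^ w := by
      rw [pow_succ, Nat.cast_mul, Real.mul_rpow (by positivity) (by positivity)]
    rw [t3, Fintype.card_fin, ← hc, Nat.cast_add, Nat.cast_mul, Nat.cast_mul, Nat.cast_pow]
    set y := ((q ^ k : ℕ) : ℝ) ^ w with hy
    have y0 : 0 ≤ y := by positivity
    have a1 : (ρ : ℝ) * s ≤ ρ * (C * y) := mul_le_mul_of_nonneg_left hs (by positivity)
    have a2 : (c : ℝ) * ((q ^ k : ℕ) : ℝ) ^ 2 ≤ c * y :=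
      mul_le_mul_of_nonneg_left t2 (by positivity)
    have a3 : (c : ℝ) * y ≤ C * ((q : ℝ) ^ w - ρ) * y := mul_le_mul_of_nonneg_right hC1 y0
    nlinarith

theorem MM.all {L Q P : Type} [Fintype L] [Fintype Q] [Fintype P] [DecidableEq L]
    [DecidableEq Q] [Nonempty P] [Nonempty Q] (hB : Bil L Q P) {ρ : ℕ}
    (hρ : Fintype.card P ≤ ρ * Fintype.card L) {w : ℝ} (hw : 2 ≤ w)
    (hlt : (ρ : ℝ) < (Fintype.card Q : ℝ) ^ w) :
    ∃ C : ℝ, ∀ (R : Type) [CommRing R] [Algebra ℂ R] (m : ℕ), 1 ≤ m → ∃ s : ℕ,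
      (s : ℝ) ≤ C * (m : ℝ) ^ w ∧ MM R L (Fin m) s := by
  obtain ⟨C, C0, hC⟩ := MM.pow hB hρ hw hlt
  set q := Fintype.card Q with hq
  have q2 : 1 < q := by
    have h1 : 1 ≤ ρ := by
      have : 0 < Fintype.card P := Fintype.card_pos
      rcases Nat.eq_zero_or_pos ρ with rfl | h
      · omega
      · exact h
    have h2 : 1 ≤ q := Fintype.card_pos
    by_contra h3
    have h4 : q = 1 := by omega
    rw [h4, Nat.cast_one, Real.one_rpow] at hlt
    have : (1 : ℝ) ≤ ρ := by exact_mod_cast h1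
    linarith
  refine ⟨C * (q : ℝ) ^ w, fun R _ _ m hm => ?_⟩
  obtain ⟨s, hs, hM⟩ := hC R (Nat.log q m + 1)
  have hne : Nonempty (Fin m) := ⟨⟨0, hm⟩⟩
  refine ⟨s, hs.trans ?_, hM.of_le (by simpa using (Nat.lt_pow_succ_log_self q2 m).le)⟩
  rw [mul_assoc, ← Real.mul_rpow (by positivity) (by positivity)]
  refine mul_le_mul_of_nonneg_left (Real.rpow_le_rpow (by positivity) ?_ (by linarith)) C0
  have := Nat.pow_log_le_self q (show m ≠ 0 by omega)
  have h2 : q ^ (Nat.log q m + 1) ≤ q * m := by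
    rw [pow_succ, mul_comm]
    exact Nat.mul_le_mul_left _ this
  exact_mod_cast h2

end Pool.Agent.P.MP_e72dc0_lc.Ck
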