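import Pool.Agent.P.MP_e72dc0_lc.Ck.A

/-! From the simultaneous double product property to bilinear schemes. -/

namespace Pool.Agent.P.MP_e72dc0_lc.Ck

open Finset

/-- The simultaneous double product property for an arbitrary index type. -/
def Sd {G ι : Type} [AddCommGroup G] (A B : ι → Finset G) : Prop :=
  (∀ i, ∀ a ∈ A i, ∀ a' ∈ A i, ∀ b ∈ B i, ∀ b' ∈ B i, a - a' + (b - b') = 0 → a = a' ∧ b = b') ∧
  ∀ i j k, ∀ a ∈ A i, ∀ a' ∈ A j, ∀ b ∈ B j, ∀ b' ∈ B k, a - a' + (b - b') = 0 → i = k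

theorem Sd.pow {G ι : Type} [AddCommGroup G] [DecidableEq G] {A B : ι → Finset G} (h : Sd A B)
    (N : ℕ) : Sd (fun v : Fin N → ι => Fintype.piFinset fun t => A (v t))
      (fun v => Fintype.piFinset fun t => B (v t)) := by
  constructor
  · intro v a ha a' ha' b hb b' hb' e
    simp only [Fintype.mem_piFinset] at ha ha' hb hb'
    have := fun t => h.1 (v t) _ (ha t) _ (ha' t) _ (hb t) _ (hb' t) (congrFun e t)
    exact ⟨funext fun t => (this t).1, funext fun t => (this t).2⟩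
  · intro u v w a ha a' ha' b hb b' hb' e
    simp only [Fintype.mem_piFinset] at ha ha' hb hb'
    exact funext fun t => h.2 _ _ _ _ (ha t) _ (ha' t) _ (hb t) _ (hb' t) (congrFun e t)

theorem Sd.comp {G ι ι' : Type} [AddCommGroup G] {A B : ι → Finset G} (h : Sd A B) (e : ι' → ι)
    (he : Function.Injective e) : Sd (fun i => A (e i)) (fun i => B (e i)) :=
  ⟨fun i => h.1 (e i), fun i j k a ha a' ha' b hb b' hb' h0 =>
    he (h.2 (e i) (e j) (e k) a ha a' ha' b hb b' hb' h0)⟩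

theorem Sd.card_le {G ι : Type} [AddCommGroup G] [Fintype G] [Fintype ι] {A B : ι → Finset G}
    (h : Sd A B) (hA : ∀ i, (A i).Nonempty) (hB : ∀ i, (B i).Nonempty) :
    Fintype.card ι ≤ Fintype.card G := by
  choose a ha using hA
  choose b hb using hB
  refine Fintype.card_le_of_injective b fun i k e => ?_
  exact h.2 i i k _ (ha i) _ (ha i) _ (hb i) _ (hb k) (by rw [e]; simp)

theorem enum {G : Type} (s : Finset G) {a : ℕ} (h : s.card = a) :
    ∃ f : Fin a → G, Function.Injective f ∧ ∀ x, f x ∈ s :=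
  ⟨fun x => ((equivFinOfCardEq h).symm x : G),
    Subtype.val_injective.comp (equivFinOfCardEq h).symm.injective,
    fun x => ((equivFinOfCardEq h).symm x).2⟩

theorem Sd.bil {G ι L : Type} [AddCommGroup G] [Fintype G] [DecidableEq L] {A B : ι → Finset G}
    (h : Sd A B) {a b : ℕ} (hA : ∀ i, (A i).card = a) (hB : ∀ i, (B i).card = b)
    (v1 v2 v3 : L → ι)
    (hv : ∀ u v w, v1 u = v1 w → v2 v = v2 u → v3 w = v3 v → u = v ∧ v = w) :
    Bil L (Fin a × Fin b) (AddChar (G × G × G) ℂ) := by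
  classical
  choose f hf hfA using fun i => enum (A i) (hA i)
  choose g hg hgB using fun i => enum (B i) (hB i)
  set S : L → Fin a × Fin b → G × G × G := fun l x => (f (v1 l) x.1, 0, g (v3 l) x.2) with hS
  set T : L → Fin a × Fin b → G × G × G := fun l x => (g (v1 l) x.2, f (v2 l) x.1, 0) with hT
  set U : L → Fin a × Fin b → G × G × G := fun l x => (0, g (v2 l) x.2, f (v3 l) x.1) with hU
  refine ⟨fun ψ p => ψ (T p.1 p.2.2 - S p.1 p.2.1), fun ψ p => ψ (U p.1 p.2.2 - T p.1 p.2.1),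
    fun ψ p => ψ (S p.1 p.2.1 - U p.1 p.2.2) / (Fintype.card (G × G × G) : ℂ), ?_⟩
  rintro ⟨l1, i, j⟩ ⟨l2, j', k⟩ ⟨l3, i', k'⟩
  have hc : (Fintype.card (G × G × G) : ℂ) ≠ 0 := Nat.cast_ne_zero.2 Fintype.card_ne_zero
  simp only [← mul_div_assoc, ← AddChar.map_add_eq_mul, ← sum_div, AddChar.sum_apply_eq_ite]
  have key : T l1 j - S l1 i + (U l2 k - T l2 j') + (S l3 i' - U l3 k') = 0 ↔
      l1 = l3 ∧ l2 = l3 ∧ i = i' ∧ j = j' ∧ k = k' := by
    constructor
    · intro e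
      simp only [hS, hT, hU, Prod.mk_sub_mk, Prod.mk_add_mk, Prod.mk_eq_zero] at e
      obtain ⟨e1, e2, e3⟩ := e
      have d1 : f (v1 l3) i'.1 - f (v1 l1) i.1 + (g (v1 l1) j.2 - g (v1 l2) j'.2) = 0 := by
        rw [← e1]; abel
      have d2 : f (v2 l1) j.1 - f (v2 l2) j'.1 + (g (v2 l2) k.2 - g (v2 l3) k'.2) = 0 := by
        rw [← e2]; abel
      have d3 : f (v3 l2) k.1 - f (v3 l3) k'.1 + (g (v3 l3) i'.2 - g (v3 l1) i.2) = 0 := by
        rw [← e3]; abel
      obtain ⟨rfl, rfl⟩ := hv l3 l1 l2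
        (h.2 _ _ _ _ (hfA _ _) _ (hfA _ _) _ (hgB _ _) _ (hgB _ _) d1)
        (h.2 _ _ _ _ (hfA _ _) _ (hfA _ _) _ (hgB _ _) _ (hgB _ _) d2)
        (h.2 _ _ _ _ (hfA _ _) _ (hfA _ _) _ (hgB _ _) _ (hgB _ _) d3)
      obtain ⟨a1, b1⟩ := h.1 _ _ (hfA _ _) _ (hfA _ _) _ (hgB _ _) _ (hgB _ _) d1
      obtain ⟨a2, b2⟩ := h.1 _ _ (hfA _ _) _ (hfA _ _) _ (hgB _ _) _ (hgB _ _) d2
      obtain ⟨a3, b3⟩ := h.1 _ _ (hfA _ _) _ (hfA _ _) _ (hgB _ _) _ (hgB _ _) d3
      exact ⟨rfl, rfl, Prod.ext (hf _ a1).symm (hg _ b3).symm, Prod.ext (hf _ a2) (hg _ b1),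
        Prod.ext (hf _ a3) (hg _ b2)⟩
    · rintro ⟨rfl, rfl, rfl, rfl, rfl⟩
      abel
  by_cases e : l1 = l3 ∧ l2 = l3 ∧ i = i' ∧ j = j' ∧ k = k'
  · rw [if_pos (key.2 e), if_pos e, div_self hc]
  · rw [if_neg (mt key.1 e), if_neg e, zero_div]

theorem triangle_free (M : ℕ) (hM : 1 ≤ M) : ∃ n : ℕ, ∃ v1 v2 v3 : Fin n → Fin M,
    (∀ u v w, v1 u = v1 w → v2 v = v2 u → v3 w = v3 v → u = v ∧ v = w) ∧ n ≤ M ^ 2 ∧
    (M : ℝ) ^ 2 / 9 * Real.exp (-4 * √(Real.log M)) ≤ n := by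
  set K := (M + 2) / 3 with hK
  obtain ⟨t, ht, hc, hf⟩ := rothNumberNat_spec K
  have hKM : K ≤ M := by omega
  have hK1 : 1 ≤ K := by omega
  have hlt : ∀ x : t, (x : ℕ) < K := fun x => mem_range.1 (ht x.2)
  let e := (Fintype.equivFin (t × Fin K)).symm
  refine ⟨Fintype.card (t × Fin K),
    fun u => ⟨(e u).1 + (e u).2, by have := hlt (e u).1; have := (e u).2.2; omega⟩,
    fun u => ⟨(e u).2, by have := (e u).2.2; omega⟩,
    fun u => ⟨3 * K - 3 - ((e u).1 + 2 * (e u).2), by omega⟩, ?_, ?_, ?_⟩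
  · intro u v w h1 h2 h3
    simp only [Fin.mk.injEq] at h1 h2 h3
    have b1 := hlt (e v).1
    have b2 := hlt (e w).1
    have b3 := (e v).2.2
    have b4 := (e w).2.2
    have h4 : ((e v).1 : ℕ) = (e u).1 :=
      hf (e v).1.2 (e u).1.2 (e w).1.2 (by omega)
    exact ⟨e.injective (Prod.ext (Subtype.ext h4.symm) (Fin.ext h2.symm)),
      e.injective (Prod.ext (Subtype.ext (by omega)) (Fin.ext (by omega)))⟩
  · have := card_le_card ht
    rw [card_range] at this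
    simp only [Fintype.card_prod, Fintype.card_coe, Fintype.card_fin]
    nlinarith
  · simp only [Fintype.card_prod, Fintype.card_coe, Fintype.card_fin, hc, Nat.cast_mul]
    have h1 := Behrend.roth_lower_bound (N := K)
    have h2 : (M : ℝ) / 3 ≤ K := by
      have : M ≤ 3 * K := by omega
      have : (M : ℝ) ≤ 3 * K := by exact_mod_cast this
      linarith
    have h3 : Real.exp (-4 * √(Real.log M)) ≤ Real.exp (-4 * √(Real.log K)) := by
      refine Real.exp_le_exp.2 ?_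
      have : √(Real.log K) ≤ √(Real.log M) :=
        Real.sqrt_le_sqrt (Real.log_le_log (by exact_mod_cast hK1) (by exact_mod_cast hKM))
      linarith
    have h0 : (0 : ℝ) ≤ M / 3 := by positivity
    calc (M : ℝ) ^ 2 / 9 * Real.exp (-4 * √(Real.log M))
        = M / 3 * Real.exp (-4 * √(Real.log M)) * (M / 3) := by ring
      _ ≤ K * Real.exp (-4 * √(Real.log K)) * K := by gcongr
      _ ≤ _ := by gcongr

theorem prod_type {ι : Type} [Fintype ι] [DecidableEq ι] {N : ℕ} (a : ι → ℕ) (v : Fin N → ι) :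
    ∏ t, a (v t) = ∏ i, a i ^ (univ.filter fun t => v t = i).card := by
  rw [← prod_fiberwise univ v]
  refine prod_congr rfl fun i _ => ?_
  rw [← prod_const]
  exact prod_congr rfl fun t ht => by rw [(mem_filter.1 ht).2]

theorem type_class {ι : Type} [Fintype ι] [DecidableEq ι] (N : ℕ) (φ : (Fin N → ι) → ℝ) :
    ∃ (μ : ι → ℕ) (F : Finset (Fin N → ι)),
      (∀ v ∈ F, ∀ a : ι → ℕ, ∏ t, a (v t) = ∏ i, a i ^ μ i) ∧
      (∑ v, φ v) / ((N + 1 : ℝ) ^ Fintype.card ι) ≤ ∑ v ∈ F, φ v := by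
  let ty : (Fin N → ι) → ι → Fin (N + 1) := fun v i => ⟨(univ.filter fun t => v t = i).card,
    Nat.lt_succ_of_le ((card_filter_le _ _).trans (by simp))⟩
  obtain ⟨μ, -, hμ⟩ := exists_le_sum_fiber_of_maps_to_of_nsmul_le_sum (s := univ) (t := univ)
    (f := ty) (w := φ) (b := (∑ v, φ v) / ((N + 1 : ℝ) ^ Fintype.card ι))
    (fun _ _ => mem_univ _) univ_nonempty (by
      rw [card_univ, Fintype.card_fun, Fintype.card_fin, nsmul_eq_mul]
      push_cast
      rw [mul_div_cancel₀ _ (by positivity)])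
  refine ⟨fun i => μ i, _, fun v hv a => ?_, hμ⟩
  rw [prod_type a v, ← (mem_filter.1 hv).2]

end Pool.Agent.P.MP_e72dc0_lc.Ck
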