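import Pool.Agent.P.MP_e72dc0_lc.Ck.B

/-! The theorem of Cohn, Kleinberg, Szegedy and Umans on two families, for arithmetic circuits. -/

namespace Pool.Agent.P.MP_e72dc0_lc.Ck

open Finset

theorem growth {x : ℝ} (hx : 1 < x) (n : ℕ) :
    ∃ N : ℕ, 18 * ((N + 1 : ℝ) ^ n) ^ 2 * Real.exp (4 * √((N : ℝ) * n)) < x ^ N := by
  have hl : 0 < Real.log x := Real.log_pos hx
  obtain ⟨P, hP⟩ := exists_nat_gt ((17 + 8 * n) / Real.log x)
  rw [div_lt_iff₀ hl] at hP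
  have P1 : (1 : ℝ) ≤ P := by
    have : P ≠ 0 := by
      rintro rfl
      have : (0 : ℝ) ≤ n := by positivity
      simp at hP
      linarith
    exact_mod_cast Nat.one_le_iff_ne_zero.2 this
  have n0 : (0 : ℝ) ≤ n := by positivity
  refine ⟨P ^ 2, ?_⟩
  have h1 : (((P ^ 2 : ℕ) : ℝ) + 1) ≤ Real.exp (2 * P) := by
    have := Real.add_one_le_exp (P : ℝ)
    rw [two_mul, Real.exp_add]
    push_cast
    nlinarith
  have h2 : ((((P ^ 2 : ℕ) : ℝ) + 1) ^ n) ^ 2 ≤ Real.exp (4 * n * P) := by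
    calc _ ≤ ((Real.exp (2 * P)) ^ n) ^ 2 := by gcongr
      _ = _ := by
        rw [← Real.exp_nat_mul, ← Real.exp_nat_mul]
        congr 1
        push_cast
        ring
  have h3 : √(((P ^ 2 : ℕ) : ℝ) * n) ≤ P * n := by
    refine Real.sqrt_le_iff.2 ⟨by positivity, ?_⟩
    have : (n : ℝ) ≤ n ^ 2 := by exact_mod_cast Nat.le_self_pow two_ne_zero n
    push_cast
    rw [mul_pow]
    gcongr
  have h4 : (18 : ℝ) ≤ Real.exp 17 := by
    have := Real.add_one_le_exp (17 : ℝ)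
    linarith
  calc _ ≤ Real.exp 17 * Real.exp (4 * n * P) * Real.exp (4 * (P * n)) := by gcongr
    _ = Real.exp (17 + 8 * n * P) := by
      rw [← Real.exp_add, ← Real.exp_add]
      congr 1
      ring
    _ < Real.exp ((P ^ 2 : ℕ) * Real.log x) := by
      refine Real.exp_lt_exp.2 ?_
      push_cast
      nlinarith
    _ = _ := by rw [Real.exp_nat_mul, Real.exp_log (by linarith)]

theorem uniform {G : Type} [AddCommGroup G] [Fintype G] {M a b : ℕ} {A B : Fin M → Finset G}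
    (h : Sd A B) (hA : ∀ i, (A i).card = a) (hB : ∀ i, (B i).card = b) {w : ℝ} (hw : 2 ≤ w)
    (hlt : 18 * (Fintype.card G : ℝ) ^ 3 <
      (M * ((a * b : ℕ) : ℝ) ^ (w / 2)) ^ 2 * Real.exp (-4 * √(Real.log M))) :
    ∃ C : ℝ, ∀ (R : Type) [CommRing R] [Algebra ℂ R] (m : ℕ), 1 ≤ m → ∃ s : ℕ,
      (s : ℝ) ≤ C * (m : ℝ) ^ w ∧ ∃ L : Type, Nonempty L ∧ MM R L (Fin m) s := by
  classical
  have g1 : 1 ≤ Fintype.card G := Fintype.card_pos
  have g0 : (0 : ℝ) < 18 * (Fintype.card G : ℝ) ^ 3 := by positivity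
  have hM : 1 ≤ M := by
    rcases Nat.eq_zero_or_pos M with rfl | h
    · simp at hlt
      linarith
    · exact h
  have hq : a * b ≠ 0 := by
    intro e
    rw [e, Nat.cast_zero, Real.zero_rpow (by linarith)] at hlt
    simp at hlt
    linarith
  have a0 : 0 < a := Nat.pos_of_ne_zero (left_ne_zero_of_mul hq)
  have b0 : 0 < b := Nat.pos_of_ne_zero (right_ne_zero_of_mul hq)
  obtain ⟨L, v1, v2, v3, hv, hL1, hL2⟩ := triangle_free M hM
  have hMG : M ≤ Fintype.card G := by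
    simpa using h.card_le (fun i => card_pos.1 (by rw [hA]; exact a0))
      (fun i => card_pos.1 (by rw [hB]; exact b0))
  have L0 : (0 : ℝ) < L := lt_of_lt_of_le (by positivity) hL2
  have L1 : 0 < L := by exact_mod_cast L0
  have hLr : L ≤ Fintype.card G ^ 3 :=
    hL1.trans ((Nat.pow_le_pow_left hMG 2).trans (Nat.pow_le_pow_right g1 (by norm_num)))
  have hP : Fintype.card (AddChar (G × G × G) ℂ) = Fintype.card G ^ 3 := by
    rw [AddChar.card_eq]
    simp only [Fintype.card_prod]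
    ring
  have hne : Nonempty (Fin a × Fin b) := ⟨⟨0, a0⟩, ⟨0, b0⟩⟩
  obtain ⟨C, hC⟩ := MM.all (h.bil hA hB v1 v2 v3 hv) (ρ := Fintype.card G ^ 3 / L + 1)
    (by
      rw [hP, Fintype.card_fin, add_mul, one_mul]
      exact (Nat.lt_div_mul_add L1).le) hw
    (by
      simp only [Fintype.card_prod, Fintype.card_fin]
      have e1 : ((a * b : ℕ) : ℝ) ^ w = (((a * b : ℕ) : ℝ) ^ (w / 2)) ^ 2 := by
        rw [← Real.rpow_two, ← Real.rpow_mul (by positivity)]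
        congr 1
        ring
      have e2 : ((Fintype.card G ^ 3 / L : ℕ) : ℝ) * L ≤ (Fintype.card G : ℝ) ^ 3 := by
        exact_mod_cast Nat.div_mul_le_self _ _
      have e3 : (L : ℝ) ≤ (Fintype.card G : ℝ) ^ 3 := by exact_mod_cast hLr
      rw [e1, Nat.cast_add, Nat.cast_one]
      set y := (((a * b : ℕ) : ℝ) ^ (w / 2)) ^ 2 with hy
      have y0 : 0 ≤ y := by positivity
      have e4 := mul_le_mul_of_nonneg_right hL2 y0
      rw [mul_pow, ← hy] at hlt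
      refine lt_of_mul_lt_mul_right ?_ L0.le
      nlinarith)
  refine ⟨C, fun R _ _ m hm => ?_⟩
  obtain ⟨s, hs, hM⟩ := hC R m hm
  exact ⟨s, hs, Fin L, ⟨⟨0, L1⟩⟩, hM⟩

theorem final {g σ D z y E : ℝ} {N : ℕ} (g0 : 0 < g) (σ0 : 0 < σ) (D0 : 0 < D)
    (hN : 18 * D ^ 2 * Real.exp (4 * z) < (σ ^ 2 / g) ^ N) (hμ : σ ^ N / D ≤ y)
    (hE : Real.exp (-4 * z) ≤ E) : 18 * g ^ N < y ^ 2 * E := by
  refine lt_of_lt_of_le ?_ (mul_le_mul (pow_le_pow_left₀ (by positivity) hμ 2) hE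
    (by positivity) (by positivity))
  rw [div_pow, lt_div_iff₀ (by positivity), ← pow_mul, mul_comm 2 N, pow_mul] at hN
  rw [div_pow, neg_mul, Real.exp_neg, ← div_eq_mul_inv, div_div, lt_div_iff₀ (by positivity)]
  linarith

theorem general {G : Type} [AddCommGroup G] [Fintype G] {n : ℕ} {A B : Fin n → Finset G}
    (h : Sd A B) {w : ℝ} (hw : 2 ≤ w) (hlt : (Fintype.card G : ℝ) ^ (3 / 2 : ℝ) <
      ∑ i, (((A i).card * (B i).card : ℕ) : ℝ) ^ (w / 2)) :
    ∃ C : ℝ, ∀ (R : Type) [CommRing R] [Algebra ℂ R] (m : ℕ), 1 ≤ m → ∃ s : ℕ,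
      (s : ℝ) ≤ C * (m : ℝ) ^ w ∧ ∃ L : Type, Nonempty L ∧ MM R L (Fin m) s := by
  classical
  set x : Fin n → ℝ := fun i => (((A i).card * (B i).card : ℕ) : ℝ) ^ (w / 2) with hx
  set σ := ∑ i, x i with hσ
  set g : ℝ := (Fintype.card G : ℝ) with hg
  have g0 : 0 < g := by
    rw [hg]
    exact_mod_cast Fintype.card_pos
  have σ0 : 0 < σ := lt_trans (by positivity) hlt
  have h1 : g ^ 3 < σ ^ 2 := by
    have : g ^ 3 = (g ^ (3 / 2 : ℝ)) ^ 2 := by
      rw [← Real.rpow_natCast, ← Real.rpow_natCast, ← Real.rpow_mul g0.le]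
      norm_num
    rw [this]
    gcongr
  obtain ⟨N, hN⟩ := growth ((one_lt_div (by positivity)).2 h1) n
  obtain ⟨μ, F, hF, hμ⟩ := type_class N fun v : Fin N → Fin n => ∏ t, x (v t)
  rw [← Fintype.sum_pow, ← hσ, Fintype.card_fin] at hμ
  set a := ∏ i, (A i).card ^ μ i with ha
  set b := ∏ i, (B i).card ^ μ i with hb
  have hA : ∀ v ∈ F, ∏ t, (A (v t)).card = a := fun v hv => hF v hv fun i => (A i).card
  have hB : ∀ v ∈ F, ∏ t, (B (v t)).card = b := fun v hv => hF v hv fun i => (B i).card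
  have hsum : ∑ v ∈ F, ∏ t, x (v t) = F.card * ((a * b : ℕ) : ℝ) ^ (w / 2) := by
    rw [← nsmul_eq_mul, ← sum_const]
    refine sum_congr rfl fun v hv => ?_
    rw [← hA v hv, ← hB v hv, ← prod_mul_distrib, Nat.cast_prod,
      ← Real.finsetProd_rpow _ _ fun _ _ => by positivity]
  rw [hsum] at hμ
  obtain ⟨e, he, heF⟩ := enum F rfl
  refine uniform ((h.pow N).comp e he) (a := a) (b := b)
    (fun i => by rw [Fintype.card_piFinset, hA _ (heF i)])
    (fun i => by rw [Fintype.card_piFinset, hB _ (heF i)]) hw ?_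
  have hlog : Real.log F.card ≤ (N : ℝ) * n := by
    have c1 : F.card ≤ n ^ N := (card_le_univ F).trans (by simp)
    have c2 : (F.card : ℝ) ≤ Real.exp (N * n) := by
      rw [Real.exp_nat_mul]
      refine le_trans (b := (n : ℝ) ^ N) (by exact_mod_cast c1)
        (pow_le_pow_left₀ (by positivity) ?_ N)
      have := Real.add_one_le_exp (n : ℝ)
      linarith
    rcases Nat.eq_zero_or_pos F.card with h0 | h0
    · rw [h0]
      simp
      positivity
    · exact (Real.log_le_iff_le_exp (by exact_mod_cast h0)).2 c2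
  have hE : Real.exp (-4 * √((N : ℝ) * n)) ≤ Real.exp (-4 * √(Real.log F.card)) := by
    refine Real.exp_le_exp.2 ?_
    have := Real.sqrt_le_sqrt hlog
    linarith
  have hcard : (Fintype.card (Fin N → G) : ℝ) ^ 3 = (g ^ 3) ^ N := by
    rw [Fintype.card_fun, Fintype.card_fin, Nat.cast_pow, ← pow_mul, ← pow_mul, mul_comm]
  rw [hcard]
  exact final (pow_pos g0 3) σ0 (pow_pos (Nat.cast_add_one_pos N) n) hN hμ hE

open MvPolynomial in
theorem method_poly {G : Type} [AddCommGroup G] [Fintype G] {n : ℕ} {A B : Fin n → Finset G}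
    (h : Sd A B) {w : ℝ} (hw : 2 ≤ w) (hlt : (Fintype.card G : ℝ) ^ (3 / 2 : ℝ) <
      ∑ i, (((A i).card * (B i).card : ℕ) : ℝ) ^ (w / 2)) :
    ∃ K : ℝ, ∀ m : ℕ, 1 ≤ m →
      ∃ (s : ℕ) (g : Fin s → MvPolynomial ((Fin m × Fin m) ⊕ (Fin m × Fin m)) ℂ),
        (s : ℝ) ≤ K * ((m : ℝ) ^ 2) ^ (w / 2) ∧
        (∀ t, ∃ u ∈ Set.range X ∪ Set.range C ∪ g '' Set.Iio t,
          ∃ v ∈ Set.range X ∪ Set.range C ∪ g '' Set.Iio t, g t = u + v ∨ g t = u * v) ∧
        ∀ i j : Fin m, ∃ t, g t = ∑ k : Fin m, X (Sum.inl (i, k)) * X (Sum.inr (k, j)) := by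
  obtain ⟨K, hK⟩ := general h hw hlt
  refine ⟨K, fun m hm => ?_⟩
  obtain ⟨s, hs, L, ⟨l⟩, hM⟩ := hK (MvPolynomial ((Fin m × Fin m) ⊕ (Fin m × Fin m)) ℂ) m hm
  obtain ⟨s', hs', g, hg, hT⟩ := (hM (Set.range X ∪ Set.range C) Set.subset_union_right
    (fun _ i k => X (Sum.inl (i, k))) (fun _ k j => X (Sum.inr (k, j)))
    (fun _ _ _ => Or.inl ⟨_, rfl⟩) (fun _ _ _ => Or.inl ⟨_, rfl⟩)).toList
  refine ⟨s', g, ?_, hg, fun i j => ?_⟩
  · have e : ((m : ℝ) ^ 2) ^ (w / 2) = (m : ℝ) ^ w := by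
      rw [← Real.rpow_two, ← Real.rpow_mul (by positivity)]
      congr 1
      ring
    rw [e]
    exact le_trans (by exact_mod_cast hs') hs
  · rcases hT ⟨(l, i, j), rfl⟩ with (⟨v, hv⟩ | ⟨c, hc⟩) | ht
    · have := congrArg (eval fun _ => (2 : ℂ)) hv
      simp only [map_sum, map_mul, eval_X, sum_const, card_univ, Fintype.card_fin,
        nsmul_eq_mul] at this
      have h2 : (2 : ℕ) = m * (2 * 2) := by exact_mod_cast this
      omega
    · have h0 := congrArg (eval fun _ => (0 : ℂ)) hc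
      have h1 := congrArg (eval fun _ => (1 : ℂ)) hc
      simp only [map_sum, map_mul, eval_X, eval_C, sum_const, card_univ, Fintype.card_fin,
        nsmul_eq_mul, mul_zero, mul_one] at h0 h1
      have h2 : (0 : ℕ) = m := by exact_mod_cast h0.symm.trans h1
      omega
    · exact ht

theorem method {G : Type} [AddCommGroup G] [Fintype G] {n : ℕ} {A B : Fin n → Finset G}
    (h : Sd A B) {w : ℝ} (hw : 2 ≤ w) (hlt : (Fintype.card G : ℝ) ^ (3 / 2 : ℝ) <
      ∑ i, (((A i).card * (B i).card : ℕ) : ℝ) ^ (w / 2)) :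
    ∃ K : ℝ, ∀ m : ℕ, 1 ≤ m →
      ∃ (s : ℕ) (g : Fin s → (Fin m → Fin m → ℂ) → (Fin m → Fin m → ℂ) → ℂ),
        (s : ℝ) ≤ K * ((m : ℝ) ^ 2) ^ (w / 2) ∧
        (∀ t, ∃ u : Fin 2 → (Fin m → Fin m → ℂ) → (Fin m → Fin m → ℂ) → ℂ,
          (∀ e, (∃ i j, ∀ x y, u e x y = x i j) ∨ (∃ i j, ∀ x y, u e x y = y i j) ∨
            (∃ c : ℂ, ∀ x y, u e x y = c) ∨ ∃ t' < t, ∀ x y, u e x y = g t' x y) ∧
          ((∀ x y, g t x y = u 0 x y + u 1 x y) ∨ ∀ x y, g t x y = u 0 x y * u 1 x y)) ∧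
        ∀ i j : Fin m, ∃ t, ∀ x y, g t x y = ∑ k, x i k * y k j := by
  obtain ⟨K, hK⟩ := general h hw hlt
  refine ⟨K, fun m hm => ?_⟩
  obtain ⟨s, hs, L, ⟨l⟩, hM⟩ := hK ((Fin m → Fin m → ℂ) → (Fin m → Fin m → ℂ) → ℂ) m hm
  obtain ⟨s', hs', g, hg, hT⟩ := (hM {u | (∃ i j, ∀ x y, u x y = x i j) ∨
    (∃ i j, ∀ x y, u x y = y i j) ∨ ∃ c : ℂ, ∀ x y, u x y = c}
    (by
      rintro _ ⟨c, rfl⟩
      exact Or.inr (Or.inr ⟨c, fun _ _ => rfl⟩))
    (fun _ i k x _ => x i k) (fun _ k j _ y => y k j)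
    (fun _ i k => Or.inl ⟨i, k, fun _ _ => rfl⟩)
    (fun _ k j => Or.inr (Or.inl ⟨k, j, fun _ _ => rfl⟩))).toList
  refine ⟨s', g, ?_, fun t => ?_, fun i j => ?_⟩
  · have e : ((m : ℝ) ^ 2) ^ (w / 2) = (m : ℝ) ^ w := by
      rw [← Real.rpow_two, ← Real.rpow_mul (by positivity)]
      congr 1
      ring
    rw [e]
    exact le_trans (by exact_mod_cast hs') hs
  · obtain ⟨u, hu, v, hv, e⟩ := hg t
    refine ⟨![u, v], Fin.forall_fin_two.2 ⟨?_, ?_⟩,
      e.imp (fun e x y => by rw [e]; rfl) fun e x y => by rw [e]; rfl⟩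
    · rcases hu with (hu | hu | hu) | ⟨t', ht', rfl⟩
      exacts [Or.inl hu, Or.inr (Or.inl hu), Or.inr (Or.inr (Or.inl hu)),
        Or.inr (Or.inr (Or.inr ⟨t', ht', fun _ _ => rfl⟩))]
    · rcases hv with (hu | hu | hu) | ⟨t', ht', rfl⟩
      exacts [Or.inl hu, Or.inr (Or.inl hu), Or.inr (Or.inr (Or.inl hu)),
        Or.inr (Or.inr (Or.inr ⟨t', ht', fun _ _ => rfl⟩))]
  · have two : ¬ (m : ℂ) * (2 * 2) = 2 := fun e => by
      have h2 : m * (2 * 2) = 2 := by exact_mod_cast e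
      omega
    rcases hT ⟨(l, i, j), rfl⟩ with (⟨a, b, hv⟩ | ⟨a, b, hv⟩ | ⟨c, hc⟩) | ⟨t, ht⟩
    · exact absurd (by simpa using hv (fun _ _ => 2) fun _ _ => 2) two
    · exact absurd (by simpa using hv (fun _ _ => 2) fun _ _ => 2) two
    · have h0 := hc (fun _ _ => 0) fun _ _ => 0
      have h1 := hc (fun _ _ => 1) fun _ _ => 1
      simp only [Finset.sum_apply, Pi.mul_apply, sum_const, card_univ, Fintype.card_fin,
        nsmul_eq_mul, mul_zero, mul_one] at h0 h1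
      have h2 : m = 0 := by exact_mod_cast h1.trans h0.symm
      omega
    · exact ⟨t, fun x y => by rw [ht]; simp⟩

theorem control : ∃ A B : Fin 2 → Finset (ZMod 16 × ZMod 16), Sd A B ∧
    (Fintype.card (ZMod 16 × ZMod 16) : ℝ) ^ (3 / 2 : ℝ) <
      ∑ i, (((A i).card * (B i).card : ℕ) : ℝ) ^ ((17 / 6 : ℝ) / 2) := by
  set H : Finset (ZMod 16 × ZMod 16) := univ.filter fun x => x.1 ≠ 0 ∧ x.2 = 0 with hH
  set V : Finset (ZMod 16 × ZMod 16) := univ.filter fun x => x.1 = 0 ∧ x.2 ≠ 0 with hV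
  have cH : H.card = 15 := by decide +kernel
  have cV : V.card = 15 := by decide +kernel
  refine ⟨![H, V], ![V, H], ⟨?_, ?_⟩, ?_⟩
  · intro i a ha a' ha' b hb b' hb' e
    have e1 := congrArg Prod.fst e
    have e2 := congrArg Prod.snd e
    fin_cases i <;> simp [hH, hV] at ha ha' hb hb' <;>
      simp [ha, ha', hb, hb', sub_eq_zero] at e1 e2 <;>
      simp [Prod.ext_iff, ha, ha', hb, hb', e1, e2]
  · intro i j k a ha a' ha' b hb b' hb' e
    have e1 := congrArg Prod.fst e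
    have e2 := congrArg Prod.snd e
    fin_cases i <;> fin_cases j <;> fin_cases k <;> simp [hH, hV] at ha ha' hb hb' ⊢ <;>
      simp [ha, ha', hb, hb'] at e1 e2
  · have e1 : (Fintype.card (ZMod 16 × ZMod 16) : ℝ) ^ (3 / 2 : ℝ) = 4096 := by
      have : (Fintype.card (ZMod 16 × ZMod 16) : ℝ) = 16 ^ (2 : ℝ) := by
        rw [Fintype.card_prod, ZMod.card]
        norm_num
      rw [this, ← Real.rpow_mul (by norm_num)]
      norm_num
    have e2 : (2048 : ℝ) < 225 ^ ((17 / 6 : ℝ) / 2) := by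
      refine lt_of_pow_lt_pow_left₀ 12 (by positivity) ?_
      rw [← Real.rpow_natCast ((225 : ℝ) ^ _), ← Real.rpow_mul (by norm_num)]
      norm_num
    rw [e1, Fin.sum_univ_two]
    simp only [Matrix.cons_val_zero, Matrix.cons_val_one, cH, cV]
    norm_num at e2 ⊢
    linarith

end Pool.Agent.P.MP_e72dc0_lc.Ck
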